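import Pool.Agent.helper54.XP.SpecS
import Pool.Agent.helper54.V3.SpecT
import Pool.Agent.helper36.MP.SpecZ
import Pool.Agent.helper74.NL.Spec

/-!
# Project gr: (MP_af9036_an x25, MP_70a088_an x10): Theorem G (closest returns)

Paper: /team-store/MP_af9036_G_helper88.md. `f z = z ^ n + c`, `Z j = f^j(0)`, `A j = (f^(j-1))'(c)`.

THEOREM G. There is an absolute constant `K`: `n ≥ 4`, `c ∈ M_n`, `p ≥ 2`, `X ‖Z p‖ ≤ ‖Z j‖` for `1 ≤ j < p` imply `dist(c, H_n) ≤ K (1 + log X)/X`.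
(helper54: all `n` rotations are used, so that `K` does not depend on `n`.)

RULES. File `Pool/Agent/<seat>/GR/XX.lean`: `import Pool.Agent.helper88.GR.Spec`, `set_option autoImplicit false`,
`open Complex Metric Set Filter Topology MeasureTheory`, `open MPS (om)`, `open PPS (pre TT fd)`, `open XPS (Df er dens tau)`, `noncomputable section`, `namespace GR`,
`theorem XX (h : YY_stmt) ... : XX_stmt`. Hypotheses may be: other statements of this file (no circles), and all statements of `PPS`, `MPS`, `XPS`, `V3`, `NLF` (all proved).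
Auxiliary lemmas prefixed `XX_`. No `sorry`, no straight double quotes in comments.
-/

set_option autoImplicit false

open Complex Metric Set Filter Topology MeasureTheory
open MPS (om)
open PPS (pre TT fd)
open XPS (Df er dens tau)
open Pool.Agent.helper16.Multibrot

noncomputable section

namespace GR

/-! ## Definitions -/

/-- the polynomial `z ^ n + c`. -/
def fp (n : ℕ) (c : ℂ) : Polynomial ℂ := Polynomial.X ^ n + Polynomial.C c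

/-- the critical orbit: `Z 0 = 0`, `Z 1 = c`. -/
def Z (n : ℕ) (c : ℂ) (j : ℕ) : ℂ := (fun w : ℂ => w ^ n + c)^[j] 0

/-- `A j = (f^(j-1))'(c)`, `j ≥ 1`; `A 1 = 1`. -/
def A (n : ℕ) (c : ℂ) (j : ℕ) : ℂ := ∏ i ∈ Finset.Ico 1 j, (n : ℂ) * Z n c i ^ (n - 1)

/-- `S j = ∑_{i ≤ j} 1 / A i`. -/
def S (n : ℕ) (c : ℂ) (j : ℕ) : ℂ := ∑ i ∈ Finset.Icc 1 j, 1 / A n c i

/-- `λ`. -/
def lam (n : ℕ) (c : ℂ) (p q : ℕ) : ℂ := Z n c p * A n c q / (Z n c q * A n c p)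

/-- `x_j = 1 - λ` for `j ≤ q`, `1` for `j > q`. -/
def xc (n : ℕ) (c : ℂ) (p q j : ℕ) : ℂ := if j ≤ q then 1 - lam n c p q else 1

/-- the quadratic differential `B = B_p - λ B_q`. -/
def B (n : ℕ) (c : ℂ) (p q : ℕ) (w : ℂ) : ℂ := ∑ j ∈ Finset.Icc 1 p, xc n c p q j / A n c j / (w - Z n c j)

/-- the radius `R = |z_q|`. -/
def R (n : ℕ) (c : ℂ) (q : ℕ) : ℝ := ‖Z n c q‖

/-- `X = |z_q| / |z_p|`. -/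
def X (n : ℕ) (c : ℂ) (p q : ℕ) : ℝ := ‖Z n c q‖ / ‖Z n c p‖

/-- the situation: `p` is a closest return, `q` the previous one. -/
structure Ret (n : ℕ) (c : ℂ) (p q : ℕ) : Prop where
  hn : 2 ≤ n
  hc : ‖c‖ ≤ 2
  le2 : ∀ j, 1 ≤ j → j ≤ p → ‖Z n c j‖ ≤ 2
  ne0 : ∀ j, 1 ≤ j → j ≤ p → Z n c j ≠ 0
  q1 : 1 ≤ q
  qp : q < p
  mn : ∀ j, 1 ≤ j → j < p → ‖Z n c q‖ ≤ ‖Z n c j‖
  lt : ‖Z n c p‖ < ‖Z n c q‖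

/-- the tower of inverse branches on `V = ball 0 R`. -/
structure Tow (n : ℕ) (c : ℂ) (p q : ℕ) (G : ℕ → ℂ → ℂ) : Prop where
  zero : ∀ w, G 0 w = w
  diff : ∀ m < p, DifferentiableOn ℂ (G m) (ball 0 (R n c q))
  rel : ∀ m, m + 1 < p → ∀ w ∈ ball (0 : ℂ) (R n c q), G (m + 1) w ^ n + c = G m w ∧ G (m + 1) w ≠ 0
  val : ∀ m < p, G m (Z n c p) = Z n c (p - m)

/-- `C` is a Koebe constant (quarter theorem), see `V3.KO1_stmt`. -/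
def KQ (C : ℝ) : Prop := 1 ≤ C ∧ ∀ (G : ℂ → ℂ) (a : ℂ) (r : ℝ), 0 < r → DifferentiableOn ℂ G (ball a r) →
  InjOn G (ball a r) → ball (G a) (r * ‖deriv G a‖ / C) ⊆ G '' ball a r

/-- `C` is a distortion constant for the half radius, see `V3.KO3_stmt` with `η = 1/2`. -/
def KD (C : ℝ) : Prop := 1 ≤ C ∧ ∀ (G : ℂ → ℂ) (a : ℂ) (r : ℝ), 0 < r → DifferentiableOn ℂ G (ball a r) →
  InjOn G (ball a r) → ∀ x ∈ ball a (r / 2), ‖deriv G x - deriv G a‖ ≤ C * (‖x - a‖ / r) * ‖deriv G a‖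

/-- the energy inequality on `ball 0 4`. -/
def Eg (n : ℕ) (c : ℂ) (b : ℂ → ℂ) (E : ℝ) : Prop :=
  ∫⁻ z in ball (0 : ℂ) 4, ENNReal.ofReal (Df (fp n c) b z + 2 * ‖er (fp n c) b z‖) ≤ ENNReal.ofReal E

/-- `σ`: the cell of `z_j` contains `ball (z_j) (σ |A_j|)`. -/
def sg (C : ℝ) (n : ℕ) (c : ℂ) (p q : ℕ) : ℝ := R n c q / (16 * C ^ 2 * ‖A n c p‖)

/-- the scale `s = σ |A_j₀|` of the cell `j₀`. -/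
def ss (C : ℝ) (n : ℕ) (c : ℂ) (p q j₀ : ℕ) : ℝ := sg C n c p q * ‖A n c j₀‖

/-- `B` in the coordinate `x` of the cell `j₀`. -/
def Bh (C : ℝ) (n : ℕ) (c : ℂ) (p q j₀ : ℕ) (x : ℂ) : ℂ :=
  (ss C n c p q j₀ : ℂ) * A n c j₀ * B n c p q (Z n c j₀ + (ss C n c p q j₀ : ℂ) * x)

/-- the inverse branch to the cell `j₀` in the coordinates `u`, `x`. -/
def gg (C : ℝ) (n : ℕ) (c : ℂ) (p q j₀ : ℕ) (G : ℕ → ℂ → ℂ) (u : ℂ) : ℂ :=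
  (G (p - j₀) ((R n c q : ℂ) * u) - Z n c j₀) / (ss C n c p q j₀ : ℂ)

/-! ## Algebra -/

/-- PREL: the preimages of `y ^ n + c`.
PROOF. `fp n c - C (y^n+c) = X^n - C (y^n) = ∏_{k<n} (X - C (om n ^ k * y))` (`X_pow_sub_one_eq_prod`/`IsPrimitiveRoot` `nthRoots`; or: both multisets have cardinality `n` (PPS.PRB), the right one is nodup as `y ≠ 0` and `om n` is primitive
(`MPS.TB_prim` in helper27/MP/TB.lean) and consists of preimages, `Multiset.eq_of_le_of_card_le`). -/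
def PREL_stmt : Prop := ∀ (n : ℕ) (c y : ℂ), 2 ≤ n → y ≠ 0 →
  pre (fp n c) (y ^ n + c) = (Multiset.range n).map fun k => om n ^ k * y

/-- NAT: `fp`, its derivative, and the points `Z`.
PROOF. `simp`; `Function.iterate_succ_apply'`; `Finset.prod_Ico_succ_top`. `R > 0`, `A j ≠ 0` from `Ret.ne0`. -/
def NAT_stmt : Prop := ∀ (n : ℕ) (c : ℂ), 2 ≤ n →
  (∀ z, (fp n c).eval z = z ^ n + c) ∧ (∀ z, fd (fp n c) z = (n : ℂ) * z ^ (n - 1)) ∧ (fp n c).natDegree = n ∧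
  (∀ j, Z n c (j + 1) = Z n c j ^ n + c) ∧ Z n c 0 = 0 ∧ Z n c 1 = c ∧ A n c 1 = 1 ∧ S n c 1 = 1 ∧
  (∀ j, 1 ≤ j → A n c (j + 1) = (n : ℂ) * Z n c j ^ (n - 1) * A n c j) ∧
  (∀ j, S n c (j + 1) = S n c j + 1 / A n c (j + 1)) ∧
  ∀ p q, Ret n c p q → 0 < R n c q ∧ R n c q ≤ 2 ∧ 1 < X n c p q ∧ R n c q = X n c p q * ‖Z n c p‖ ∧
    (∀ j, 1 ≤ j → j ≤ p + 1 → A n c j ≠ 0) ∧ xc n c p q p = 1 ∧
    ∀ j, ‖xc n c p q j - 1‖ ≤ ‖lam n c p q‖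

/-- TSP: the transfer of a simple pole.
PROOF. PREL with `y^n = z - c`, `y ≠ 0`; `MPS.TB_S1` (helper27/MP/TB.lean) gives `a/(n y^n (y^n - a^n)) = (1/(n a^(n-1))) (1/(y^n - a^n) - 1/y^n)` (`MPS.fd n y = n y^(n-1)`). -/
def TSP_stmt : Prop := ∀ (n : ℕ) (c a z : ℂ), 2 ≤ n → a ≠ 0 → z ≠ c → z ≠ a ^ n + c →
  TT (fp n c) (fun w => 1 / (w - a)) z = 1 / ((n : ℂ) * a ^ (n - 1)) * (1 / (z - (a ^ n + c)) - 1 / (z - c))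

/-- ERB: the error term [paper, (1.1)], `ζ = z - c`.
PROOF. `TT` is additive in the differential (a sum over a multiset). TSP for `a = Z j`, `Z j ^ n + c = Z (j+1)`, `1/(n Z_j^(n-1) A_j) = 1/A_(j+1)`:
`T B_m = ∑_{2 ≤ j ≤ m+1} (1/A_j)(1/(z - Z_j) - 1/(z - c))` for `m = p, q` (write `B = B_p - λ B_q`, `B_m = ∑_{1≤j≤m} (1/A_j)/(z - Z_j)`), so `B_m - T B_m = S_(m+1)/ζ - (1/A_(m+1))/(z - Z_(m+1)) = S_m/ζ + (1/A_(m+1))(1/ζ - 1/(ζ - Z_m^n))`,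
`Z_m^n/A_(m+1) = Z_m/(n A_m) =: D_m`, so `= S_m/ζ - D_m/(ζ (ζ - Z_m^n))`; `λ D_q = D_p`; `1/(ζ-a) - 1/(ζ-b) = (a-b)/((ζ-a)(ζ-b))`. -/
def ERB_stmt : Prop := ∀ (n : ℕ) (c : ℂ) (p q : ℕ), Ret n c p q → ∀ z : ℂ, z ≠ c →
  (∀ j, 1 ≤ j → j ≤ p + 1 → z ≠ Z n c j) →
  er (fp n c) (B n c p q) z = (S n c p - lam n c p q * S n c q) / (z - c) +
    Z n c p / ((n : ℂ) * A n c p) * ((Z n c q ^ n - Z n c p ^ n) /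
      ((z - c) * (z - c - Z n c p ^ n) * (z - c - Z n c q ^ n)))

/-! ## Integrals -/

/-- MSB: `B` is measurable and integrable on `ball 0 4`.
PROOF. Finite sum of `const/(w - a)`; `MPS.MI` (helper../MP/MI: `1/‖z-a‖` is integrable on balls). -/
def MSB_stmt : Prop := ∀ (n : ℕ) (c : ℂ) (p q : ℕ), Measurable (B n c p q) ∧
  ∫⁻ z in ball (0 : ℂ) 4, ENNReal.ofReal ‖B n c p q z‖ ≠ ⊤

/-- KER: the kernel with three poles.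
PROOF. `α = ‖a‖`, `β = ‖b‖`, `‖b-a‖ ≤ 3β/2`, `‖b-a‖ ≥ β/2`. (1) `‖z-b‖ < β/4`: `‖z‖ ≥ 3β/4`, `‖z-a‖ ≥ β/4`, integrand `≤ 8/(β ‖z-b‖)`, integral `≤ 4π`. (2) `‖z‖ > 2β`: integrand `≤ 8β/‖z‖³`, integral `≤ 8π` (polar coordinates, or dyadic annuli
`2^k β < ‖z‖ ≤ 2^(k+1) β` of area `≤ π 4^(k+1) β²`). (3) `‖z‖ ≤ 2β`, `‖z-b‖ ≥ β/4`: integrand `≤ 6/(‖z‖‖z-a‖)`; over `‖z‖ < α/2` and over `‖z-a‖ < α/2` the integral of `1/(‖z‖‖z-a‖)` is `≤ 2π` each; for `‖z‖, ‖z-a‖ ≥ α/2` we have `‖z-a‖ ≥ ‖z‖/3`, integrand `≤ 3/‖z‖²`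
on `α/2 ≤ ‖z‖ ≤ 2β`: `≤ 6π log(4β/α)`, or with dyadic annuli `≤ C (1 + log(β/α))`. -/
def KER_stmt : Prop := ∃ C : ℝ, 0 < C ∧ ∀ a b : ℂ, a ≠ 0 → 2 * ‖a‖ ≤ ‖b‖ →
  ∫⁻ z : ℂ, ENNReal.ofReal (‖b - a‖ / (‖z‖ * ‖z - a‖ * ‖z - b‖)) ≤ ENNReal.ofReal (C * (1 + Real.log (‖b‖ / ‖a‖)))

/-- ERI: the integral of the error [paper, (1.2)].
PROOF. ERB (all but finitely many `z`). First term: `∫_{ball 0 4} 1/‖z-c‖ ≤ ∫_{ball c 6} = 12π` (`MPS.MI`). Second: `‖Z p/(n A p)‖` times KER (translation by `c`) with `a = Z_p^n`, `b = Z_q^n`, `‖b‖/‖a‖ = X^n ≥ 2`, `log = n log X`, `(1/n)(1 + n log X) ≤ 1 + log X`.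
So `C = 12π + C_KER` works (`κ ≥ 1`). -/
def ERI_stmt : Prop := ∃ C : ℝ, 0 < C ∧ ∀ (n : ℕ) (c : ℂ) (p q : ℕ) (κ : ℝ), Ret n c p q → 2 ≤ X n c p q → 1 ≤ κ →
  ‖S n c p - lam n c p q * S n c q‖ ≤ κ * (‖Z n c p‖ / ‖A n c p‖) * (1 + Real.log (X n c p q)) →
  ∫⁻ z in ball (0 : ℂ) 4, ENNReal.ofReal ‖er (fp n c) (B n c p q) z‖ ≤
    ENNReal.ofReal (C * κ * (‖Z n c p‖ / ‖A n c p‖) * (1 + Real.log (X n c p q)))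

/-- ENG: the energy inequality [paper, (LOSS)].
PROOF. `f⁻¹(ball 0 4) ⊆ ball 0 4` (`‖z^n + c‖ < 4` gives `‖z‖^n < 6`). `PPS.MCV` for `F = ofReal ‖b‖`: `∫_{ball 0 4} T|b| = ∫_{f⁻¹} |b| ≤ ∫_{ball 0 4} |b| < ∞`. `Df = T|b| - |Tb|`, `|Tb| ≥ |b| - |er|`, so `∫ Df ≤ ∫ |er|` (subtract the finite integral of `|b|`; write `ofReal (Df) + ofReal ‖b‖ ≤
ofReal (T|b|) + ofReal ‖er‖` pointwise, since `Df + ‖b‖ ≤ T|b| + ‖er‖` and all are `≥ 0`). Measurability: `PPS.MS`, as in helper54/XP/MIX.lean. -/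
def ENG_stmt : Prop := ∀ (n : ℕ) (c : ℂ) (b : ℂ → ℂ) (ε : ℝ), 2 ≤ n → ‖c‖ ≤ 2 → Measurable b →
  ∫⁻ z in ball (0 : ℂ) 4, ENNReal.ofReal ‖b z‖ ≠ ⊤ → 0 ≤ ε →
  ∫⁻ z in ball (0 : ℂ) 4, ENNReal.ofReal ‖er (fp n c) b z‖ ≤ ENNReal.ofReal ε →
  (∀ z, 0 ≤ Df (fp n c) b z) ∧ Measurable (Df (fp n c) b) ∧ Measurable (er (fp n c) b) ∧ Eg n c b (3 * ε)

/-! ## The tower and the cells -/

/-- TOW: the tower exists [paper, 2].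
PROOF. Induction on `m`: given `G m`, `m + 1 < p`, with `f^m (G m w) = w` on `V`. `c ∉ G m '' V`: `G m w = c` gives `w = f^m c = Z (m+1)`, `‖Z (m+1)‖ ≥ R` (`1 ≤ m+1 ≤ p-1`). `MPS.LR` for `F = G m - c`, `w₀ = Z p ∈ V`, `v = Z (p-m-1)` (`v^n + c = Z (p-m)`).
`G (m+1) w ≠ 0` as its `n`-th power is `G m w - c ≠ 0`. -/
def TOW_stmt : Prop := ∀ (n : ℕ) (c : ℂ) (p q : ℕ), Ret n c p q → ∃ G : ℕ → ℂ → ℂ, Tow n c p q G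

/-- TOP: properties of the tower.
PROOF. (1) induction. (2) from (1). (3) `‖z‖ ≥ 4` implies `‖z^n + c‖ ≥ ‖z‖` (`≥ 4‖z‖ - 2`), so by (1) `‖G m w‖ ≥ 4` would give `‖w‖ ≥ 4`. (4), (5) differentiate `rel`: `n G_(m+1)^(n-1) G_(m+1)' = G_m'`; at `Z p`: `G_(m+1)'(Z p) = G_m'(Z p)/(n Z_(p-m-1)^(n-1))` and `A (p-m) = n Z_(p-m-1)^(n-1) A (p-m-1)`. -/
def TOP_stmt : Prop := ∀ (n : ℕ) (c : ℂ) (p q : ℕ) (G : ℕ → ℂ → ℂ), Ret n c p q → Tow n c p q G →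
  (∀ m < p, ∀ w ∈ ball (0 : ℂ) (R n c q), (fun z : ℂ => z ^ n + c)^[m] (G m w) = w) ∧
  (∀ m < p, InjOn (G m) (ball 0 (R n c q))) ∧
  (∀ m < p, MapsTo (G m) (ball 0 (R n c q)) (ball 0 4)) ∧
  (∀ m < p, ∀ w ∈ ball (0 : ℂ) (R n c q), deriv (G m) w ≠ 0) ∧
  (∀ m < p, deriv (G m) (Z n c p) = A n c (p - m) / A n c p)

/-- KNV: Koebe for injective functions without zeros.
PROOF. First: `KQ` on `ball w (R - ‖w‖)`: the ball of radius `(R-‖w‖) ‖G' w‖/C` about `G w` is in the image, so does not contain `0`. Second: `G` has a holomorphic logarithm `L` on the ball (`MPS.LR` is not enough; use `exists_lift_exp`, see helper54/CR/Landau.lean, or apply the mean value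
inequality to `t ↦ log ‖G(..)‖`), `‖L'‖ ≤ C/(R - R/8) ≤ 8C/(7R)` on `ball 0 (R/8)`, so on `ball 0 (R/(8C))` (`C ≥ 1`): `‖L w - L w'‖ ≤ (8C/(7R)) (2R/(8C)) = 2/7`, `‖G w'‖ ≤ e^(2/7) ‖G w‖ ≤ 2 ‖G w‖`. -/
def KNV_stmt : Prop := ∀ (C r : ℝ) (G : ℂ → ℂ), KQ C → 0 < r → DifferentiableOn ℂ G (ball 0 r) → InjOn G (ball 0 r) →
  (∀ w ∈ ball (0 : ℂ) r, G w ≠ 0) → (∀ w ∈ ball (0 : ℂ) r, ‖deriv G w‖ * (r - ‖w‖) ≤ C * ‖G w‖) ∧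
  ∀ w ∈ ball (0 : ℂ) (r / (8 * C)), ∀ w' ∈ ball (0 : ℂ) (r / (8 * C)), ‖G w'‖ ≤ 2 * ‖G w‖

/-- DIS: disjointness [paper, 2].
PROOF. Let `Om = ball 0 (R/(8C))`, `Z p ∈ Om` (`‖Z p‖ = R/X ≤ R/(16C)`). (a) `G k '' Om` and `Om` are disjoint for `1 ≤ k < p`: if `w ∈ Om`, `G k w ∈ Om`, KNV (`G k` has no zeros by `rel`): `‖Z (p-k)‖ = ‖G k (Z p)‖ ≤ 2 ‖G k w‖ < 2R/(8C) ≤ R/4`, contradiction to `mn` (`1 ≤ p-k < p`).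
(b) `m < m'`, `G m w = G m' w'`: apply `f^m`: `w = f^m(G m' w') = G (m'-m) w'` (both sides: `rel` iterated), contradiction to (a). -/
def DIS_stmt : Prop := ∀ (C : ℝ) (n : ℕ) (c : ℂ) (p q : ℕ) (G : ℕ → ℂ → ℂ), KQ C → Ret n c p q → Tow n c p q G →
  16 * C ≤ X n c p q → ∀ m < p, ∀ m' < p, m ≠ m' →
  Disjoint (G m '' ball 0 (R n c q / (8 * C))) (G m' '' ball 0 (R n c q / (8 * C)))

/-- CEL: the cells [paper, 2].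
PROOF. `KQ` for `G (p-j)` on `ball (Z p) (R/(16C)) ⊆ ball 0 (R/(8C))`: its image contains `ball (Z j) ((R/(16 C)) ‖A j/A p‖/C) = ball (Z j) (σ ‖A j‖)` (TOP). These balls are disjoint for different `j` (DIS), so `σ‖A i‖ + σ‖A j‖ ≤ dist` (`disjoint_ball_ball_iff`).
Last: KNV first part for `G (p-q)` at `Z p`: `‖A q/A p‖ (R - ‖Z p‖) ≤ C ‖Z q‖ = C R`, `‖Z p‖ ≤ R/2`; `‖lam‖ = (‖Z p‖/‖Z q‖) ‖A q/A p‖`. -/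
def CEL_stmt : Prop := ∀ (C : ℝ) (n : ℕ) (c : ℂ) (p q : ℕ) (G : ℕ → ℂ → ℂ), KQ C → Ret n c p q → Tow n c p q G →
  16 * C ≤ X n c p q → (∀ i ∈ Finset.Icc 1 p, ∀ j ∈ Finset.Icc 1 p, i ≠ j →
    sg C n c p q * (‖A n c i‖ + ‖A n c j‖) ≤ ‖Z n c i - Z n c j‖) ∧
  ‖A n c q‖ ≤ 2 * C * ‖A n c p‖ ∧ ‖lam n c p q‖ ≤ 2 * C / X n c p q

/-! ## The smallest cell -/

/-- SEP: a sum over separated poles is almost affine.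
PROOF. `h x = ∑ ρ i/(x - p i)` is holomorphic on `ball 0 1`, `h'' = ∑ 2 ρ i/(x - p i)³`, for `‖x‖ ≤ 1/2` (`‖x - p i‖ ≥ ‖p i‖ - 1/2 ≥ ‖p i‖/2`) `‖h''‖ ≤ 32 ∑ 1/‖p i‖³ ≤ 32·50/8 = 200` (`V3.NSU`, `c = R = 2`). Taylor along the segment from `0`: `a = h 0`, `b = h' 0`.
(Or algebraically: `1/(x-p) + 1/p + x/p² = x²/(p² (x-p))`, so `‖..‖ ≤ 2‖x‖² ∑ 2/‖p‖³ ≤ 25 ‖x‖²`: shortest.) -/
def SEP_stmt : Prop := ∀ (ι : Type) (s : Finset ι) (ρ p : ι → ℂ), (∀ i ∈ s, ‖ρ i‖ ≤ 2) → (∀ i ∈ s, 2 ≤ ‖p i‖) →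
  (∀ i ∈ s, ∀ j ∈ s, i ≠ j → 2 ≤ ‖p i - p j‖) →
  ∃ a b : ℂ, ∀ x : ℂ, ‖x‖ ≤ 1 / 2 → ‖∑ i ∈ s, ρ i / (x - p i) - a - b * x‖ ≤ 100 * ‖x‖ ^ 2

/-- MOD: the local form of `B` at the smallest cell [paper, 3].
PROOF. `s = σ‖A j₀‖ > 0`, `p_j = (Z j - Z j₀)/s`; `Bh x = ∑_j (xc j A_j₀/A_j)/(x - p_j)` (`s A_j₀ (xc j/A_j)/(Z j₀ + s x - Z j)`). The term `j = j₀` is `xc j₀/x`. `‖p_i - p_j‖ = ‖Z i - Z j‖/s ≥ (‖A i‖+‖A j‖)/‖A j₀‖ ≥ 2` (CEL, minimality), in particular `‖p_j‖ ≥ 2`;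
`‖xc j‖ ≤ 1 + ‖lam‖ ≤ 2` (CEL: `‖lam‖ ≤ 2C/X ≤ 1/8`), `‖A_j₀/A_j‖ ≤ 1`. SEP. -/
def MOD_stmt : Prop := ∀ (C : ℝ) (n : ℕ) (c : ℂ) (p q : ℕ) (G : ℕ → ℂ → ℂ) (j₀ : ℕ), KQ C → Ret n c p q →
  Tow n c p q G → 16 * C ≤ X n c p q → j₀ ∈ Finset.Icc 1 p → (∀ j ∈ Finset.Icc 1 p, ‖A n c j₀‖ ≤ ‖A n c j‖) →
  ∃ a b : ℂ, ∀ x : ℂ, 0 < ‖x‖ → ‖x‖ ≤ 1 / 2 →
    ‖Bh C n c p q j₀ x - xc n c p q j₀ / x - a - b * x‖ ≤ 100 * ‖x‖ ^ 2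

/-- GUN: the map `g` [paper, 3]. `u₀ = Z p/R`, `‖u₀‖ = 1/X ≤ 1/16`.
PROOF. `g` is holomorphic and injective on `ball 0 1` (TOP), `g' u = R G'(R u)/s`, so `‖g' u₀‖ = R ‖A_j₀/A_p‖/(σ‖A_j₀‖) = 16 C²`. `KD` on `ball u₀ (7/8) ⊆ ball 0 1`: for `‖u‖ ≤ 1/4`, `‖u - u₀‖ < 7/16`: `‖g' u - g' u₀‖ ≤ D (8/7) ‖u-u₀‖ 16 C²`; mean value inequality on the convex ball
for `g u - g' u₀ (u - u₀)`. -/
def GUN_stmt : Prop := ∀ (C D : ℝ) (n : ℕ) (c : ℂ) (p q : ℕ) (G : ℕ → ℂ → ℂ) (j₀ : ℕ), KQ C → KD D → Ret n c p q →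
  Tow n c p q G → 16 * C ≤ X n c p q → j₀ ∈ Finset.Icc 1 p → ∃ u₀ γ : ℂ, ‖u₀‖ = 1 / X n c p q ∧ ‖γ‖ = 16 * C ^ 2 ∧
    ∀ u : ℂ, ‖u‖ ≤ 1 / 4 → ‖gg C n c p q j₀ G u - γ * (u - u₀)‖ ≤ 32 * C ^ 2 * D * ‖u - u₀‖ ^ 2 ∧
      ‖deriv (gg C n c p q j₀ G) u - γ‖ ≤ 32 * C ^ 2 * D * ‖u - u₀‖

/-- SCA: `tau` in the coordinate `u`.
PROOF. `deriv gg u = R G'(R u)/s` (chain rule, `R u ∈ ball 0 R`), `Bh (gg u) = s A_j₀ B(G (R u))`; so the left side is `(A_j₀ R²/s) tau`. `‖A_j₀/s‖ = 1/σ`. -/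
def SCA_stmt : Prop := ∀ (C : ℝ) (n : ℕ) (c : ℂ) (p q : ℕ) (G : ℕ → ℂ → ℂ) (j₀ : ℕ), KQ C → Ret n c p q →
  Tow n c p q G → j₀ ∈ Finset.Icc 1 p → ∃ θ : ℂ, ‖θ‖ = sg C n c p q / R n c q ^ 2 ∧ 0 < sg C n c p q ∧ ∀ u ∈ ball (0 : ℂ) 1,
    tau (B n c p q) G (p - j₀) ((R n c q : ℂ) * u) =
      θ * (Bh C n c p q j₀ (gg C n c p q j₀ G u) * deriv (gg C n c p q j₀ G) u ^ 2)

/-! ## Inequalities -/

/-- CHN: the chain inequality [paper, (4.1)].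
PROOF. `XPS.LVG` (first claim; `f = fp n c`, `Ω = ball 0 R`, `Q = m₀`, `fd f (G (q+1) w) = n G^(n-1) ≠ 0`): `∑_{1≤q≤m₀} lev ≤ ∑_{q<m₀} dens + ‖τ_0‖ - ‖τ_m₀‖`, and `‖τ_0 - τ_m₀‖ ≤ ∑ lev` (telescoping; as in the proof of the second claim). Integrate over `Om = ball 0 (R/(8C))`; sum of the integrals of `dens`
`≤ ofReal E` by `MPS.MA_cov`, `MPS.MA_mult` with multiplicity `1` (DIS) as in helper54/XP/MAX.lean (measurability: ENG gives it for `Df`, `er`). -/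
def CHN_stmt : Prop := ∀ (C : ℝ) (n : ℕ) (c : ℂ) (p q : ℕ) (G : ℕ → ℂ → ℂ) (E : ℝ), KQ C → Ret n c p q →
  Tow n c p q G → 16 * C ≤ X n c p q → Measurable (Df (fp n c) (B n c p q)) → Measurable (er (fp n c) (B n c p q)) →
  Eg n c (B n c p q) E → ∀ m₀ < p, ∫⁻ w in ball (0 : ℂ) (R n c q / (8 * C)), ENNReal.ofReal
    (‖tau (B n c p q) G m₀ w‖ + ‖tau (B n c p q) G 0 w - tau (B n c p q) G m₀ w‖ - ‖tau (B n c p q) G 0 w‖) ≤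
      ENNReal.ofReal E

/-- CRT: the loss at the critical value [paper, (4.2)].
PROOF. For `y ≠ 0`, by PREL: `Df (f y) ‖fd y‖² = ∑_k ‖b(ω^k y)‖ - ‖∑_k ω^(2k) b(ω^k y)‖` (`fd (ω^k y)² = ω^(-2k) fd(y)²`, `ω^n = 1`). `PPS.MCV` with `F y = ofReal (Df (f y) ‖fd y‖²)`, `K = ball c (r^n)`: `∫_{ball 0 r} F = ∫_K ∑_{y ∈ pre z} F y/‖fd y‖² = n ∫_K ofReal (Df z)` (for `z ≠ c`: `fd y ≠ 0`;
`card pre = n`) `≤ n ∫_{ball 0 4} ofReal Df` as `K ⊆ ball 0 4` (`‖c‖ + 1 ≤ 3`), and `Df ≤ Df + 2‖er‖`. -/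
def CRT_stmt : Prop := ∀ (n : ℕ) (c : ℂ) (b : ℂ → ℂ) (E r : ℝ), 2 ≤ n → ‖c‖ ≤ 2 → Measurable b → 0 < r → r ≤ 1 →
  Measurable (Df (fp n c) b) → Eg n c b E →
  ∫⁻ y in ball (0 : ℂ) r, ENNReal.ofReal (∑ k ∈ Finset.range n, ‖b (om n ^ k * y)‖ -
    ‖∑ k ∈ Finset.range n, om n ^ (2 * k) * b (om n ^ k * y)‖) ≤ n * ENNReal.ofReal E

/-- SYM: the symmetry inequality [paper, (4.3)].
PROOF. `b = B = tau B G 0` (`G 0 w = w`, `deriv (G 0) = 1`), `h = tau B G m₀`, `ω = om n`. Pointwise (triangle inequality): `∑_k ‖h(ω^k w)‖ - ‖∑_k ω^(2k) h(ω^k w)‖ ≤ ∑_k (‖h(ω^k w)‖ + ‖b(ω^k w) - h(ω^k w)‖ - ‖b(ω^k w)‖) + (∑_k ‖b(ω^k w)‖ - ‖∑_k ω^(2k) b(ω^k w)‖)`. Integrate: CHN `n` times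
(rotation by `ω^k` preserves Lebesgue measure and the ball: `LinearIsometryEquiv`, `lintegral` under a measure preserving equivalence), CRT with `r = R/(8C) ≤ 1`. Measurability on the ball: `G m₀` is holomorphic there, `B` is measurable. -/
def SYM_stmt : Prop := ∀ (C : ℝ) (n : ℕ) (c : ℂ) (p q : ℕ) (G : ℕ → ℂ → ℂ) (E : ℝ), KQ C → Ret n c p q →
  Tow n c p q G → 16 * C ≤ X n c p q → Measurable (Df (fp n c) (B n c p q)) → Measurable (er (fp n c) (B n c p q)) →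
  Eg n c (B n c p q) E → ∀ m₀ < p, ∫⁻ w in ball (0 : ℂ) (R n c q / (8 * C)), ENNReal.ofReal
    (∑ k ∈ Finset.range n, ‖tau (B n c p q) G m₀ (om n ^ k * w)‖ -
      ‖∑ k ∈ Finset.range n, om n ^ (2 * k) * tau (B n c p q) G m₀ (om n ^ k * w)‖) ≤ 2 * n * ENNReal.ofReal E

/-! ## The end -/

/-- SEL: selection of a scale [paper, 5].
PROOF. The three quantities are `Λ^k`, `α`, `β Λ^(-k)`. Near ties: `Λ^(k-1) < α < Λ^(k+1)` holds for at most two `k`; `Λ^(2k-1) < β < Λ^(2k+1)` for at most one; `α Λ^(k-1) < β < α Λ^(k+1)` for at most two. So one of the six `k` has no near tie; then each two of the three quantities differ at least by the factor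
`Λ ≥ 2` (in the sense `Λ s ≤ t` or `Λ t ≤ s`), and the largest one (it is `> 0`) dominates. -/
def SEL_stmt : Prop := ∀ Λ α β : ℝ, 2 ≤ Λ → 0 ≤ α → 0 ≤ β → ∃ k ∈ Finset.Icc 1 6,
  (Λ * α ≤ Λ ^ k ∧ Λ * (β / Λ ^ k) ≤ Λ ^ k) ∨ (Λ * Λ ^ k ≤ α ∧ Λ * (β / Λ ^ k) ≤ α) ∨
    (Λ * Λ ^ k ≤ β / Λ ^ k ∧ Λ * α ≤ β / Λ ^ k)

/-- LOC: one of the three terms dominates on an annulus [paper, 5].
PROOF. `Λ` large (depending on all constants), `X₀ = Γ Λ^8`, `c₀ = Λ^(-6)/Γ`. SEL with `α = ‖a‖`, `β = ‖b‖` gives `k`; `y = Λ^(-k)`, `ρ = y/Γ`. Let `ρ/2 < ‖u‖ < ρ`. `‖u₀‖ ≤ Λ^(-8)/Γ ≤ Λ^(-2) ρ`, `‖u - u₀‖ ≤ 2ρ`, so `g u = γ u (1 + ε₁)`, `‖ε₁‖ ≤ 2Λ^(-2) + 8 C₃ ρ/Γ`, `g' u = γ (1 + ε₂)`,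
`‖ε₂‖ ≤ 2 C₃ ρ/Γ`, and `y/4 ≤ ‖g u‖ ≤ 2y ≤ 1/2`. `‖xs/x‖ ≤ 8/y`, `‖b x‖ ≤ 2‖b‖y`, `C₂‖x‖² ≤ 4 C₂ y² ≤ 4 C₂ Λ^(-3)/y` (`y³ ≤ Λ^(-3)`). Let `d` be the dominating index (`-1`: `1/y`, `0`: `‖a‖`, `1`: `‖b‖ y`), `κ = γ`, `a γ²`, `b γ³` respectively. Then
`Bh(g u) (g' u)² = κ u^d (1 + O(1/Λ + ‖xs - 1‖ + ‖ε₁‖ + ‖ε₂‖))` with an absolute constant (all the other terms are `≤ 8/Λ` times the dominating one). Lower bound: `‖κ u^d‖ ≥ 1`: `Γ/‖u‖ ≥ Γ`, `‖a‖Γ² ≥ 1`, `‖b‖ Γ³ ‖u‖ ≥ ‖b‖ y Γ²/2 ≥ Λ/(2y) ≥ 1`. -/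
def LOC_stmt : Prop := ∀ Γ C₂ C₃ ρ₁ η : ℝ, 1 ≤ Γ → 0 ≤ C₂ → 0 ≤ C₃ → 0 < ρ₁ → 0 < η → ∃ X₀ c₀ : ℝ, 1 ≤ X₀ ∧ 0 < c₀ ∧
  ∀ (g bh : ℂ → ℂ) (u₀ γ xs a b : ℂ), ‖γ‖ = Γ → ‖u₀‖ ≤ 1 / X₀ → ‖xs - 1‖ ≤ 1 / X₀ →
  (∀ u : ℂ, ‖u‖ ≤ 1 / 4 → ‖g u - γ * (u - u₀)‖ ≤ C₃ * ‖u - u₀‖ ^ 2 ∧ ‖deriv g u - γ‖ ≤ C₃ * ‖u - u₀‖) →
  (∀ x : ℂ, 0 < ‖x‖ → ‖x‖ ≤ 1 / 2 → ‖bh x - xs / x - a - b * x‖ ≤ C₂ * ‖x‖ ^ 2) →
  ∃ (ρ : ℝ) (κ : ℂ) (d : ℤ), c₀ ≤ ρ ∧ ρ ≤ ρ₁ ∧ (d = -1 ∨ d = 0 ∨ d = 1) ∧ ∀ u : ℂ, ρ / 2 < ‖u‖ → ‖u‖ < ρ →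
    ‖bh (g u) * deriv g u ^ 2 - κ * u ^ d‖ ≤ η * ‖κ * u ^ d‖ ∧ 1 ≤ ‖κ * u ^ d‖

/-- PHA: the phases [paper, 5]. This is the only place where `n ≥ 4` is used.
PROOF. `w = κ u^d`: `ω^(2k) κ (ω^k u)^d = ω^(k(d+2)) w`, `d + 2 ∈ {1,2,3}`, `n ∤ d + 2`, so `∑_k ω^(k(d+2)) = 0` (`MPS.TB_pow_sum` in helper27/MP/TB.lean). So `‖∑ ω^(2k) h k‖ ≤ n ‖w‖/4`, `∑ ‖h k‖ ≥ (3/4) n ‖w‖`. -/
def PHA_stmt : Prop := ∀ n : ℕ, 4 ≤ n → ∀ (κ u : ℂ) (h : ℕ → ℂ) (d : ℤ),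
  (d = -1 ∨ d = 0 ∨ d = 1) → u ≠ 0 → (∀ k < n, ‖h k - κ * (om n ^ k * u) ^ d‖ ≤ 1 / 4 * ‖κ * u ^ d‖) →
  (n : ℝ) / 2 * ‖κ * u ^ d‖ ≤ ∑ k ∈ Finset.range n, ‖h k‖ - ‖∑ k ∈ Finset.range n, om n ^ (2 * k) * h k‖

/-- CORE: the Core Theorem (theorem CORE ... : CORE_stmt).
PROOF. `C` from `V3.KO1`, `D` from `V3.KO3` (`η = 1/2`), `X₀, c₀` from LOC with `Γ = 16C²`, `C₂ = 100`, `C₃ = 32 C² D`, `ρ₁ = 1/(8C)`, `η = 1/4` (no `n` in these constants). If `X ≤ max (16C) (2C X₀)` (and `2`, `X₀`) the claim holds with this number as `K`. Otherwise: TOW, `j₀ ∈ Icc 1 p` with minimal `‖A j₀‖`,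
CEL (`‖lam‖ ≤ 2C/X ≤ 1/X₀`), MOD, GUN, LOC: `ρ, κ', d`. MSB, ERI, ENG: `Eg E`, `E = 3 C_E κ (‖Z p‖/‖A p‖)(1 + log X)`. SYM with `m₀ = p - j₀`: restrict the integral to the annulus `ρR/2 < ‖w‖ < ρR` (`ρ ≤ 1/(8C)`), of area `(3/4)π ρ²R² ≥ 2ρ²R²`. There, with `w = R u`, SCA and LOC at the points `ω^k u`
(`‖κ' (ω^k u)^d‖ = ‖κ' u^d‖`) and PHA: the integrand is `≥ (σ/R²) (n/2)`, as `tau(R u) = θ h(u)`, `‖θ‖ = σ/R²`. So `σ n ρ² ≤ 2 n E` with `ρ ≥ c₀`, `σ = X‖Z p‖/(16C²‖A p‖)`: cancel `n` and `‖Z p‖/‖A p‖ > 0`. -/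
def CORE_stmt : Prop := ∃ K : ℝ, 1 ≤ K ∧ ∀ n : ℕ, 4 ≤ n → ∀ (c : ℂ) (p q : ℕ) (κ : ℝ), Ret n c p q → 1 ≤ κ →
  ‖S n c p - lam n c p q * S n c q‖ ≤ κ * (‖Z n c p‖ / ‖A n c p‖) * (1 + Real.log (X n c p q)) →
  X n c p q ≤ K * κ * (1 + Real.log (X n c p q))

/-! ## Application 1: parameters -/

/-- GRO: growth of functions which omit `0` and `1`.
PROOF. `Pool.Agent.helper54.CR.landau` at the points of the segment from `w` to `z` (each is the centre of a ball of radius `r/2` in `ball w r`): `|d/dt log‖F‖| ≤ (8000/r) ‖z-w‖ (1 + |log ‖F‖|)`; Gronwall (as in helper52/MP/NG.lean): `1 + |log‖F z‖| ≤ e^{4000} (1 + |log‖F w‖|)`. -/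
def GRO_stmt : Prop := ∃ C : ℝ, 1 ≤ C ∧ ∀ (F : ℂ → ℂ) (w : ℂ) (r : ℝ), 0 < r → DifferentiableOn ℂ F (ball w r) →
  (∀ z ∈ ball w r, F z ≠ 0 ∧ F z ≠ 1) → ∀ z ∈ closedBall w (r / 2),
  1 + |Real.log ‖F z‖| ≤ C * (1 + |Real.log ‖F w‖|)

/-- MIS: no critical relations away from the hyperbolic parameters.
PROOF. Let `c' ∈ ball c r`, `Z i = Z j` at `c'`, `i < j`. `i = 0`: `Z j = 0` (`j ≥ 1`): superattracting, `c' ∈ hyperbolic n`. `i ≥ 1`: the orbit of `0` at `c'` takes finitely many values, none is `0` (after `0`), so `|log ‖Z_m(c')^n/c'‖| ≤ L` for all `m ≥ 1`. On a ball `ball c' ρ ⊆ ball c r`, `F_m(x) = -Z_m(x)^n/x` is holomorphic (`0 ∈ hyperbolic n`, so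
`x ≠ 0`), omits `0` and `1` (`Z_m(x) = 0` or `Z_(m+1)(x) = 0` is superattracting): GRO: `‖Z_m(x)‖ ≤ M` for all `m`, `x ∈ closedBall c' (ρ/2)`. Let `k = j - i`, `u_m(x) = Z_(i+(m+1)k)(x) - Z_(i+mk)(x)`. `u_0` is not identically zero near `c'` (otherwise the polynomial identity `Z_j(x) = Z_i(x)` holds for all `x`, but `Z_j(x)` has degree `n^(j-1) > n^(i-1)`;
or: for `x = 3` the orbit is strictly increasing). So `u_0(x) = (x-c')^d φ(x)`, `φ(c') ≠ 0`, `φ` holomorphic. `f_x^(mk)(a) - f_x^(mk)(b) = (a-b) Q_m(x,a,b)` with a polynomial `Q_m`, `Q_m(x,a,a) = (f_x^(mk))'(a)`; so `u_m(x) = (x-c')^d φ(x) Q_m(x, Z_(i+k)(x), Z_i(x))` (note `u_m = f^(mk)(Z_(i+k)) - f^(mk)(Z_i)`), and the value of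
`u_m/(x-c')^d` at `c'` is `φ(c') ρ^m`, `ρ = (f^k)'(Z_i)` (`Z_i` is `k`-periodic at `c'`), `‖ρ‖ > 1` by `MPS.ZN`. Cauchy estimate (maximum principle on the sphere of radius `ρ/2`): `‖φ(c')‖‖ρ‖^m (ρ/2)^d ≤ 2M` for all `m`: contradiction. -/
def MIS_stmt : Prop := ∀ (n : ℕ) (c : ℂ) (r : ℝ), 2 ≤ n → Disjoint (ball c r) (hyperbolic n) →
  ∀ c' ∈ ball c r, ∀ i j : ℕ, i < j → Z n c' i ≠ Z n c' j

/-- DER: the derivative in the parameter. PROOF. Induction on `j ≥ 1`: `Z_(j+1)' = n Z_j^(n-1) Z_j' + 1`, and `A_(j+1) S_(j+1) = n Z_j^(n-1) A_j S_j + 1` (`A_(j+1) ≠ 0`). -/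
def DER_stmt : Prop := ∀ (n : ℕ) (c : ℂ) (j : ℕ), 2 ≤ n → 1 ≤ j → (∀ i, 1 ≤ i → i < j → Z n c i ≠ 0) →
  HasDerivAt (fun x => Z n x j) (A n c j * S n c j) c

/-- BDM: the critical orbit of a point of `M_n`. PROOF. `‖z‖ > 2` implies `‖z^n + c‖ ≥ ‖z‖(‖z‖ - 1) `, for `‖c‖ ≤ ‖z‖`; if some `‖Z j‖ > 2` then the orbit tends to infinity (`‖c‖ ≤ 2` first: for `‖c‖ > 2` the orbit of `c` escapes). Many proofs in the pool, e.g. `Pool.Agent.helper98.ILF.growth`, or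
`Pool/Agent/helper16/Multibrot`. -/
def BDM_stmt : Prop := ∀ (n : ℕ) (c : ℂ), 2 ≤ n → c ∈ multibrot n → ∀ j, ‖Z n c j‖ ≤ 2

/-- KAP: the hypothesis of CORE for parameters [paper, APPLICATION 1].
PROOF. `0 ∈ hyperbolic n`, so `r ≤ ‖c‖ ≤ 2` and `4000/r ≥ 1`. `Φ x = Z_p(x)^n/Z_q(x)^n` on `ball c r`: holomorphic, `≠ 0` (MIS with `i = 0`: `Z j ≠ Z 0 = 0`), `≠ 1` (else `Z_(p+1) = Z_(q+1)`, MIS). `landau` at `c`: `‖Φ'/Φ‖ ≤ (4000/r)(1 + |log ‖Φ c‖|)`, `‖Φ c‖ = X^(-n)`, `|log| = n log X`. `Φ'/Φ = n (Z_p'/Z_p - Z_q'/Z_q)`,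
`Z_m' = A_m S_m` (DER), so `S p - lam S q = (Z p/(n A p)) Φ'/Φ`. -/
def KAP_stmt : Prop := ∀ (n : ℕ) (c : ℂ) (r : ℝ) (p q : ℕ), 0 < r → Disjoint (ball c r) (hyperbolic n) →
  Ret n c p q → 1 ≤ 4000 / r ∧
  ‖S n c p - lam n c p q * S n c q‖ ≤ 4000 / r * (‖Z n c p‖ / ‖A n c p‖) * (1 + Real.log (X n c p q))

/-- GF: THEOREM G (theorem GF (h : CORE_stmt) (h1 : MIS_stmt) ... : G_stmt).
PROOF. `r = infDist c H`. If `r = 0` trivial (`K ≥ 0`). Otherwise `ball c r` is disjoint from `H` (`H` is non empty), `Z j ≠ 0` for `j ≥ 1`. `q ∈ Icc 1 (p-1)` with minimal `‖Z q‖`. If `x = 1`: `r ≤ ‖c - 0‖ ≤ 2 ≤ K`. If `x > 1`: `‖Z p‖ < ‖Z q‖`, `X ≥ x`, `Ret` (BDM), KAP, CORE: `X ≤ K₀ (4000/r)(1 + log X)`, so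
`r ≤ 4000 K₀ (1 + log X)/X ≤ 4000 K₀ (1 + log x)/x` (`(1 + log t)/t` is decreasing on `t ≥ 1`: `1 + log X = 1 + log x + log (X/x) ≤ 1 + log x + X/x - 1 ≤ (X/x)(1 + log x)`). -/
def G_stmt : Prop := ∃ K : ℝ, ∀ n : ℕ, 4 ≤ n → ∀ c ∈ multibrot n, ∀ p : ℕ, 2 ≤ p → ∀ x : ℝ, 1 ≤ x →
  (∀ j, 1 ≤ j → j < p → x * ‖Z n c p‖ ≤ ‖Z n c j‖) →
  Metric.infDist c (hyperbolic n) ≤ K * (1 + Real.log x) / x

/-! ## Application 2: line fields -/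

/-- LFZ: the Cauchy transform of an invariant line field on the critical orbit.
PROOF. `NLF.REL`: `n b^(n-1) a(b) = a(b^n + c) - a(c)`, `a = NLF.CT μ`. Induction: `a(Z j) = A_j S_j a(c)`, `j ≥ 1` (as DER). `a 0 = 0`: REL at `b` and at `ωb`: `ω^(n-1) a(ωb) = a(b)` for `b ≠ 0`; `b → 0`, `a` is continuous (`NLF.CTB`), `ω^(n-1) ≠ 1`. -/
def LFZ_stmt : Prop := ∀ (n : ℕ) (c : ℂ) (μ : ℂ → ℂ), 2 ≤ n → NLF.LF n c μ → NLF.CT μ 0 = 0 ∧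
  ∀ j, 1 ≤ j → (∀ i, 1 ≤ i → i < j → Z n c i ≠ 0) → NLF.CT μ (Z n c j) = A n c j * S n c j * NLF.CT μ c

/-- LFD: difference quotients of the Cauchy transform at `0`.
PROOF. `a(b)/b = (a(b) - a(0))/b = ∫ μ/(z(z-b))`, difference `∫ μ (b-b')/(z(z-b)(z-b'))`, `‖μ‖ ≤ 1`, KER. -/
def LFD_stmt : Prop := ∃ C : ℝ, 0 < C ∧ ∀ (n : ℕ) (c : ℂ) (μ : ℂ → ℂ), NLF.LF n c μ → NLF.CT μ 0 = 0 → ∀ b b' : ℂ, b ≠ 0 →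
  2 * ‖b‖ ≤ ‖b'‖ → ‖NLF.CT μ b / b - NLF.CT μ b' / b'‖ ≤ C * (1 + Real.log (‖b'‖ / ‖b‖))

/-- GLF: THEOREM G' (theorem GLF (h : CORE_stmt) (h1 : LFZ_stmt) (h2 : LFD_stmt) ... : GL_stmt).
PROOF. `NLF.LFI`: `LF n c μ`, no attracting cycle, so `Z j ≠ 0` for `j ≥ 1`; `c ∈ M_n` (`posArea_subset`, helper64/ILF/Region98.lean, or `exceptional_subset` in Results/MP_70a088_an/UnicriticalArea.lean), so `‖Z j‖ ≤ 2` (BDM). `‖a(c)‖ ≤ 80` (`NLF.CTB`). `a(c) ≠ 0` (`NLF.NZ`). As in GF with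
`κ = C'/‖a(c)‖`, `C' ≥ 80` and `≥` the constant of LFD: `S_m = a(Z m)/(A_m a(c))`, `S p - lam S q = (Z p/(A p a(c))) (a(Z p)/Z p - a(Z q)/Z q)`, LFD (for `X ≥ 2`; `X < 2`: `‖a(c)‖ x ≤ 160`). CORE: `X ≤ K₀ (C'/‖a(c)‖)(1 + log X)`, so `‖a(c)‖ x ≤ K₀ C' (1 + log x)` as in GF. -/
def GL_stmt : Prop := ∃ K : ℝ, ∀ n : ℕ, 4 ≤ n → ∀ (c : ℂ) (μ : ℂ → ℂ),
  Pool.Agent.helper98.ILF.IsInvariantLineField (fun z : ℂ => z ^ n + c) μ → ∀ p : ℕ, 2 ≤ p → ∀ x : ℝ, 1 ≤ x →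
  (∀ j, 1 ≤ j → j < p → x * ‖Z n c p‖ ≤ ‖Z n c j‖) →
  ‖∫ z : ℂ, μ z / (z - c)‖ * x ≤ K * (1 + Real.log x)

end GR
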