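import Pool.Agent.helper88.GR.Spec

set_option autoImplicit false

open Complex Metric Set Filter Topology MeasureTheory
open MPS (om)
open PPS (pre TT fd)
open XPS (Df er dens tau)

noncomputable section

namespace GR

theorem GUN (hNAT : NAT_stmt) (hTOP : TOP_stmt) : GUN_stmt := by
  intro C D n c p q G j₀ hC hD hR hT hX hj
  obtain ⟨-, -, -, -, -, -, -, -, -, -, hN⟩ := hNAT n c hR.hn
  obtain ⟨hRpos, -, hX1, hRX, hA, -, -⟩ := hN p q hR
  obtain ⟨-, hinj, -, -, hval⟩ := hTOP n c p q G hR hT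
  obtain ⟨hj1, hj2⟩ := Finset.mem_Icc.mp hj
  have hC1 : 1 ≤ C := hC.1
  have hD1 : 1 ≤ D := hD.1
  have hm0 : p - j₀ < p := by omega
  have hAj : A n c j₀ ≠ 0 := hA j₀ hj1 (by omega)
  have hAp : A n c p ≠ 0 := hA p (by omega) (by omega)
  have hXpos : 0 < X n c p q := by linarith
  have hsg : 0 < sg C n c p q := by
    rw [sg]
    have := norm_pos_iff.mpr hAp
    positivity
  have hss : 0 < ss C n c p q j₀ := by
    rw [ss]
    exact mul_pos hsg (norm_pos_iff.mpr hAj)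
  set r : ℝ := R n c q with hr
  set s : ℝ := ss C n c p q j₀ with hs
  set m₀ := p - j₀ with hm
  have hs0 : (s : ℂ) ≠ 0 := by exact_mod_cast hss.ne'
  have hr0 : (r : ℂ) ≠ 0 := by exact_mod_cast hRpos.ne'
  have hmaps : ∀ u ∈ ball (0 : ℂ) 1, (r : ℂ) * u ∈ ball (0 : ℂ) r := by
    intro u hu
    rw [mem_ball_zero_iff] at hu ⊢
    rw [norm_mul, Complex.norm_real, Real.norm_of_nonneg hRpos.le]
    nlinarith
  have hder : ∀ u ∈ ball (0 : ℂ) 1, HasDerivAt (gg C n c p q j₀ G)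
      ((r : ℂ) * deriv (G m₀) ((r : ℂ) * u) / (s : ℂ)) u := by
    intro u hu
    have h1 : DifferentiableAt ℂ (G m₀) ((r : ℂ) * u) :=
      (hT.diff m₀ hm0).differentiableAt (isOpen_ball.mem_nhds (hmaps u hu))
    have h2 : HasDerivAt (fun u : ℂ => (r : ℂ) * u) (r : ℂ) u := by
      simpa using (hasDerivAt_id u).const_mul (r : ℂ)
    have h3 : HasDerivAt (fun u : ℂ => G m₀ ((r : ℂ) * u)) (deriv (G m₀) ((r : ℂ) * u) * (r : ℂ)) u :=
      h1.hasDerivAt.comp u h2
    have h4 := (h3.sub_const (Z n c j₀)).div_const (s : ℂ)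
    rw [mul_comm (r : ℂ)]
    exact h4
  have hdiff : DifferentiableOn ℂ (gg C n c p q j₀ G) (ball 0 1) := fun u hu =>
    (hder u hu).differentiableAt.differentiableWithinAt
  have hginj : InjOn (gg C n c p q j₀ G) (ball 0 1) := by
    intro u hu v hv huv
    have h1 : G m₀ ((r : ℂ) * u) = G m₀ ((r : ℂ) * v) := by
      have h2 : (G m₀ ((r : ℂ) * u) - Z n c j₀) / (s : ℂ) = (G m₀ ((r : ℂ) * v) - Z n c j₀) / (s : ℂ) := huv
      have h3 := (div_left_inj' hs0).mp h2
      exact sub_left_injective h3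
    have h4 := hinj m₀ hm0 (hmaps u hu) (hmaps v hv) h1
    exact mul_left_cancel₀ hr0 h4
  set u₀ : ℂ := Z n c p / (r : ℂ) with hu0
  have hXr : ‖u₀‖ = 1 / X n c p q := by
    rw [hu0, norm_div, Complex.norm_real, Real.norm_of_nonneg hRpos.le]
    have hzp : ‖Z n c p‖ ≠ 0 := by
      intro h
      rw [h, mul_zero] at hRX
      exact hRpos.ne' hRX
    rw [hRX]
    field_simp
  have hu0n : ‖u₀‖ ≤ 1 / 16 := by
    rw [hXr]
    apply one_div_le_one_div_of_le (by norm_num)
    nlinarith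
  have hru0 : (r : ℂ) * u₀ = Z n c p := by
    rw [hu0]; field_simp
  have hu0b : u₀ ∈ ball (0 : ℂ) 1 := by
    rw [mem_ball_zero_iff]; linarith
  refine ⟨u₀, deriv (gg C n c p q j₀ G) u₀, hXr, ?_, ?_⟩
  · rw [(hder u₀ hu0b).deriv, hru0, hval m₀ hm0]
    have hpm : p - m₀ = j₀ := by omega
    rw [hpm, norm_div, norm_mul, norm_div, Complex.norm_real, Complex.norm_real,
      Real.norm_of_nonneg hRpos.le, Real.norm_of_nonneg hss.le, hs, ss, sg]
    have h1 := norm_pos_iff.mpr hAp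
    have h2 := norm_pos_iff.mpr hAj
    have h3 : (0:ℝ) < C := by linarith
    rw [← hr]
    field_simp
  · set γ := deriv (gg C n c p q j₀ G) u₀ with hγ
    have hγn : ‖γ‖ = 16 * C ^ 2 := by
      rw [hγ, (hder u₀ hu0b).deriv, hru0, hval m₀ hm0]
      have hpm : p - m₀ = j₀ := by omega
      rw [hpm, norm_div, norm_mul, norm_div, Complex.norm_real, Complex.norm_real,
        Real.norm_of_nonneg hRpos.le, Real.norm_of_nonneg hss.le, hs, ss, sg]
      have h1 := norm_pos_iff.mpr hAp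
      have h2 := norm_pos_iff.mpr hAj
      have h3 : (0:ℝ) < C := by linarith
      rw [← hr]
      field_simp
    have hsub : ball u₀ (7 / 8) ⊆ ball (0 : ℂ) 1 := by
      intro v hv
      rw [mem_ball, dist_eq_norm] at hv
      rw [mem_ball_zero_iff]
      have : ‖v‖ ≤ ‖v - u₀‖ + ‖u₀‖ := by
        have := norm_add_le (v - u₀) u₀
        simpa using this
      linarith
    have hK := hD.2 (gg C n c p q j₀ G) u₀ (7 / 8) (by norm_num) (hdiff.mono hsub) (hginj.mono hsub)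
    have key : ∀ v : ℂ, ‖v - u₀‖ ≤ 5 / 16 →
        ‖deriv (gg C n c p q j₀ G) v - γ‖ ≤ 32 * C ^ 2 * D * ‖v - u₀‖ := by
      intro v hv
      have h1 : v ∈ ball u₀ (7 / 8 / 2) := by
        rw [mem_ball, dist_eq_norm]; linarith
      have h2 := hK v h1
      rw [← hγ, hγn] at h2
      refine h2.trans ?_
      have h3 : 0 ≤ ‖v - u₀‖ := norm_nonneg _
      have h4 : 0 ≤ C ^ 2 * D * ‖v - u₀‖ := by positivity
      calc D * (‖v - u₀‖ / (7 / 8)) * (16 * C ^ 2) = (128 / 7) * (C ^ 2 * D * ‖v - u₀‖) := by ring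
        _ ≤ 32 * (C ^ 2 * D * ‖v - u₀‖) := by nlinarith
        _ = 32 * C ^ 2 * D * ‖v - u₀‖ := by ring
    intro u hu
    have hu5 : ‖u - u₀‖ ≤ 5 / 16 := by
      have := norm_sub_le u u₀
      linarith
    refine ⟨?_, key u hu5⟩
    have hcl : closedBall u₀ ‖u - u₀‖ ⊆ ball (0 : ℂ) 1 := by
      intro v hv
      apply hsub
      rw [mem_closedBall, dist_eq_norm] at hv
      rw [mem_ball, dist_eq_norm]
      linarith
    have hdd : ∀ v ∈ closedBall u₀ ‖u - u₀‖, HasDerivWithinAt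
        (fun x => gg C n c p q j₀ G x - γ * (x - u₀)) (deriv (gg C n c p q j₀ G) v - γ)
        (closedBall u₀ ‖u - u₀‖) v := by
      intro v hv
      have h1 : HasDerivAt (gg C n c p q j₀ G) (deriv (gg C n c p q j₀ G) v) v :=
        (hder v (hcl hv)).differentiableAt.hasDerivAt
      have h2 : HasDerivAt (fun x : ℂ => γ * (x - u₀)) γ v := by
        simpa using ((hasDerivAt_id v).sub_const u₀).const_mul γ
      exact (h1.sub h2).hasDerivWithinAt
    have hb : ∀ v ∈ closedBall u₀ ‖u - u₀‖,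
        ‖deriv (gg C n c p q j₀ G) v - γ‖ ≤ 32 * C ^ 2 * D * ‖u - u₀‖ := by
      intro v hv
      rw [mem_closedBall, dist_eq_norm] at hv
      have h1 := key v (by linarith)
      refine h1.trans ?_
      have h2 : (0:ℝ) ≤ 32 * C ^ 2 * D := by positivity
      exact mul_le_mul_of_nonneg_left hv h2
    have hmvt := (convex_closedBall u₀ ‖u - u₀‖).norm_image_sub_le_of_norm_hasDerivWithin_le hdd hb
      (mem_closedBall_self (norm_nonneg _))
      (by rw [mem_closedBall, dist_eq_norm])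
    have hg0 : gg C n c p q j₀ G u₀ = 0 := by
      rw [gg, hru0, hT.val m₀ hm0]
      have hpm : p - m₀ = j₀ := by omega
      rw [hpm, sub_self, zero_div]
    rw [hg0] at hmvt
    simp only [sub_self, mul_zero, sub_zero] at hmvt
    calc ‖gg C n c p q j₀ G u - γ * (u - u₀)‖ ≤ 32 * C ^ 2 * D * ‖u - u₀‖ * ‖u - u₀‖ := hmvt
      _ = 32 * C ^ 2 * D * ‖u - u₀‖ ^ 2 := by ring

end GR
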