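import Pool.Agent.helper54.V3.All
import Pool.Agent.helper54.XP.AllS
import Pool.Agent.helper74.NL.Z
import Pool.Agent.helper70.NL.LFI
import Pool.Agent.helper90.GR.PREL
import Pool.Agent.helper98.GR.NAT
import Pool.Agent.helper53.GR.TSP
import Pool.Agent.helper58.GR.ERB
import Pool.Agent.helper52.GR.MSB
import Pool.Agent.helper31.GR.KER
import Pool.Agent.helper9.GR.ERI
import Pool.Agent.helper78.GR.ENG
import Pool.Agent.helper42.GR.TOW
import Pool.Agent.helper20.GR.TOP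
import Pool.Agent.helper97.GR.KNV
import Pool.Agent.helper93.GR.DIS
import Pool.Agent.helper40.GR.CEL
import Pool.Agent.helper88.GR.GUN
import Pool.Agent.helper95.GR.SCA
import Pool.Agent.helper8.GR.CHN
import Pool.Agent.helper84.GR.CRT
import Pool.Agent.helper76.GR.SYM
import Pool.Agent.helper76.GR.SEL
import Pool.Agent.helper33.GR.GRO
import Pool.Agent.helper65.GR.MIS
import Pool.Agent.helper25.GR.DER
import Pool.Agent.helper37.GR.BDM
import Pool.Agent.helper16.GR.KAP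
import Pool.Agent.helper28.GR.LFZ
import Pool.Agent.helper87.GR.LFD
import Pool.Agent.helper20.GR3.ARE
import Pool.Agent.helper31.GR3.CHP
import Pool.Agent.helper21.GR3.COR3
import Pool.Agent.helper41.GR3.G3F
import Pool.Agent.helper16.GR3.GL3F
import Pool.Agent.helper93.GR3.LCK
import Pool.Agent.helper84.GR3.MD3
import Pool.Agent.helper98.GR3.NBR
import Pool.Agent.helper24.GR3.NF3
import Pool.Agent.helper40.GR3.PAI
import Pool.Agent.helper22.GR3.PH3
import Pool.Agent.helper73.GR3.WS3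
import Pool.Agent.helper90.GR3.WS4
import Pool.Agent.helper30.GR3.WS5
import Pool.Agent.helper72.GR3.LOC3

/-!
# Project gr: / g3:, assembly (theorem G and theorem G' for `n ≥ 3`)
-/

set_option autoImplicit false

noncomputable section

namespace GR

theorem PREL_asm : PREL_stmt := PREL PPS.PRB_p
theorem NAT_asm : NAT_stmt := NAT
theorem TSP_asm : TSP_stmt := TSP PREL_asm
theorem ERB_asm : ERB_stmt := ERB NAT_asm TSP_asm
theorem MSB_asm : MSB_stmt := MSB MPS.MI_ok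
theorem ERI_asm : ERI_stmt := ERI ERB_asm KER MPS.MI_ok
theorem ENG_asm : ENG_stmt := ENG PPS.MCV_p
theorem TOW_asm : TOW_stmt := TOW MPS.LR_ok
theorem TOP_asm : TOP_stmt := TOP NAT_asm
theorem DIS_asm : DIS_stmt := DIS TOP_asm KNV
theorem CEL_asm : CEL_stmt := CEL NAT_asm TOP_asm KNV DIS_asm
theorem GUN_asm : GUN_stmt := GUN NAT_asm TOP_asm
theorem CHN_asm : CHN_stmt := CHN NAT_asm TOP_asm DIS_asm XPS.LVG_x
theorem CRT_asm : CRT_stmt := CRT PREL_asm NAT_asm PPS.MCV_p PPS.PRB_p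
theorem SYM_asm : SYM_stmt := SYM CHN_asm CRT_asm
theorem MIS_asm : MIS_stmt := MIS GRO MPS.ZN_ok
theorem KAP_asm : KAP_stmt := KAP MIS_asm DER
theorem LFZ_asm : LFZ_stmt := LFZ NLF.Z_REL NLF.Z_CTB
theorem LFD_asm : LFD_stmt := LFD KER NLF.Z_CTB
theorem WS3_asm : WS3_stmt := WS3 ARE
theorem WS5_asm : WS5_stmt := WS5 ARE
theorem WS4_asm : WS4_stmt := WS4 WS3_asm WS5_asm
theorem NBR_asm : NBR_stmt := NBR WS3_asm WS4_asm
theorem NF3_asm : NF3_stmt := NF3 NBR_asm
theorem MD3_asm : MD3_stmt := MD3 NF3_asm CEL_asm NAT_asm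
theorem CHP_asm : CHP_stmt := CHP CHN_asm
theorem LOC3_asm : LOC3_stmt := LOC3 SEL

theorem COR3_asm : COR3_stmt := COR3 V3A.KO1_v V3A.KO3_v NAT_asm MSB_asm ERI_asm ENG_asm TOW_asm CEL_asm MD3_asm GUN_asm SCA
  SYM_asm LOC3_asm LCK PH3 PAI CHP_asm
theorem G3_asm : G3_stmt := G3F COR3_asm MIS_asm BDM KAP_asm
theorem GL3_asm : GL3_stmt := GL3F COR3_asm LFZ_asm LFD_asm BDM NAT_asm NLF.Z_CTB NLF.Z_NZ NLF.LFI

end GR
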